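import Pool.Agent.H77.EA.Targets

/-!
# TR: the ambient group of an automorphism
-/

namespace Pool.Agent.H47.EA

open AMc AMe

/-- TR: the ambient group of an automorphism -/
theorem tr : T_TR := by
  intro G _ _ σ
  have hfin : Finite (MulAut G) :=
    Finite.of_injective (fun f : MulAut G => (f : G → G)) DFunLike.coe_injective
  let H : Subgroup (MulAut G) := Subgroup.zpowers σ
  let φ : H →* MulAut G := H.subtype
  let Γ := G ⋊[φ] H
  have hΓ : Finite Γ := Finite.of_equiv (G × H) SemidirectProduct.equivProd.symm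
  let iQ : CommGroup H :=
    { (inferInstance : Group H) with
      mul_comm := fun a b => by
        obtain ⟨a, i, rfl⟩ := a
        obtain ⟨b, k, rfl⟩ := b
        apply Subtype.ext
        exact Commute.zpow_zpow_self σ i k }
  let h0 : H := ⟨σ, Subgroup.mem_zpowers σ⟩
  let j : G →* Γ := SemidirectProduct.inl
  let s : Γ →* H := SemidirectProduct.rightHom
  let γ : Γ := SemidirectProduct.inr h0
  have hconj : ∀ g, γ * j g * γ⁻¹ = j (σ g) := by
    intro g
    have := SemidirectProduct.inl_aut (φ := φ) h0 g
    rw [map_inv] at this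
    exact this.symm
  have hker : j.range = s.ker := SemidirectProduct.range_inl_eq_ker_rightHom
  have hnm : Nm γ j.range := by
    intro x
    rw [hker, MonoidHom.mem_ker, MonoidHom.mem_ker, map_mul, map_mul, map_inv]
    constructor
    · intro h
      have h2 : s γ * s x = s γ := by
        rw [mul_inv_eq_one] at h
        exact h
      exact mul_eq_left.1 h2
    · intro h
      rw [h, mul_one, mul_inv_cancel]
  refine ⟨Γ, inferInstance, Fintype.ofFinite Γ, H, iQ, inferInstance, j, s, γ,
    SemidirectProduct.inl_injective, hconj, ?_⟩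
  intro D hD
  refine ⟨hnm, hker.le, ?_, ?_, ?_, ?_⟩
  · intro c hc
    rw [hker, MonoidHom.mem_ker, map_pow]
    exact hc
  · have h1 : s γ = h0 := SemidirectProduct.rightHom_inr h0
    rw [h1]
    exact Subgroup.orderOf_mk σ _
  · rintro _ ⟨g, _, rfl⟩
    exact ⟨g, rfl⟩
  · rw [Subgroup.mem_normalizer_iff]
    intro x
    constructor
    · rintro ⟨d, hd, rfl⟩
      exact ⟨σ d, (hD d).2 hd, (hconj d).symm⟩
    · rintro ⟨d, hd, hdx⟩
      have hx : γ * x * γ⁻¹ ∈ j.range := ⟨d, hdx⟩
      obtain ⟨g, rfl⟩ := (hnm x).1 hx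
      rw [hconj] at hdx
      have hg : d = σ g := SemidirectProduct.inl_injective hdx
      refine ⟨g, (hD g).1 ?_, rfl⟩
      rw [← hg]
      exact hd

end Pool.Agent.H47.EA
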